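import Pool.Agent.Helper26.MCE.GoalsA
import Pool.Agent.Helper52.MC.LemA

/-!
Project MCE (MP_d8224a_co), packet LA: the fractional lemma with periods.
-/

namespace Pool.Agent.Helper15.MCE

open Finset Pool.Agent.Helper87.MC Pool.Agent.Helper26.MCE Pool.Agent.Helper52.MC

section
variable {G : Type} [AddCommGroup G] [Fintype G]

/-- The main inequality. -/
theorem hstep (ν : G → ℝ) (hν : ∀ w, 0 ≤ ν w) (E : Finset G) (hE : E.Nonempty)
    (hw : ∀ z, z ∉ E → (∑ w : G, ν w * ind E (z - w)) ≤ 1) (S : Finset G)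
    (hpos' : ∀ w ∈ S, 0 < (rr E w : ℝ)) :
    (∑ w ∈ S, ν w * ((rr E w : ℝ) / E.card)) ^ 2 -
      ((∑ w ∈ S, ν w) - ∑ w ∈ S, ν w * ((rr E w : ℝ) / E.card)) ≤
    ∑ w ∈ S, ν w * ((rr E w : ℝ) / E.card) *
      ∑ u ∈ S, ν u * ((rr (shr E w) u : ℝ) / (shr E w).card) := by
  set A := ∑ w ∈ S, ν w * ((rr E w : ℝ) / E.card) with hAdef
  set M := ∑ w ∈ S, ν w with hMdef
  set n : ℝ := (E.card : ℝ) with hn
  have hn0 : 0 < n := by
    rw [hn]; exact_mod_cast hE.card_pos
  have hs1 : ∀ w, (rr E w : ℝ) / n ≤ 1 := fun w => (div_le_one hn0).2 (rr_le E w)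
  have hs0 : ∀ w, 0 ≤ (rr E w : ℝ) / n := fun w => by positivity
  have hspos : ∀ w ∈ S, 0 < (rr E w : ℝ) / n := fun w hw' => div_pos (hpos' w hw') hn0
  -- the values `a w`
  let a : G → ℝ := fun w => ∑ u ∈ S, ν u * ((rr (shr E w) u : ℝ) / (shr E w).card)
  -- Step 3
  let o : G → ℝ := fun x => ∑ w ∈ S, ν w * ind E (x + w)
  let T : G → ℝ := fun z => ∑ w ∈ S, ν w * ind E (z - w)
  have hT0 : ∀ z, 0 ≤ T z := fun z =>
    Finset.sum_nonneg fun w _ => mul_nonneg (hν w) (ind_nonneg _ _)
  have hT1 : ∀ z, z ∉ E → T z ≤ 1 := fun z hz =>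
    (Finset.sum_le_sum_of_subset_of_nonneg (Finset.subset_univ S)
      (fun w _ _ => mul_nonneg (hν w) (ind_nonneg _ _))).trans (hw z hz)
  have hsumo : ∑ x, ind E x * o x = n * A := by
    have : ∀ x, ind E x * o x = ∑ w ∈ S, ν w * (ind E x * ind E (x + w)) := by
      intro x
      simp only [o, Finset.mul_sum]
      exact Finset.sum_congr rfl fun w _ => by ring
    simp only [this]
    rw [Finset.sum_comm, hAdef, Finset.mul_sum]
    refine Finset.sum_congr rfl fun w _ => ?_
    rw [← Finset.mul_sum, ← rr_eq]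
    field_simp
  have hCS : n * A ^ 2 ≤ ∑ x, ind E x * o x ^ 2 := by
    have hcs := Finset.sum_mul_sq_le_sq_mul_sq Finset.univ (fun x => ind E x)
      (fun x => ind E x * o x)
    have hii : ∀ x, ind E x * ind E x = ind E x := by
      intro x; unfold ind; split_ifs <;> norm_num
    have e1 : ∑ x, ind E x * (ind E x * o x) = n * A := by
      rw [← hsumo]
      exact Finset.sum_congr rfl fun x _ => by rw [← mul_assoc, hii]
    have e2 : ∑ x, ind E x ^ 2 = n := by
      rw [hn, card_eq]
      exact Finset.sum_congr rfl fun x _ => by rw [pow_two, hii]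
    have e3 : ∑ x, (ind E x * o x) ^ 2 = ∑ x, ind E x * o x ^ 2 :=
      Finset.sum_congr rfl fun x _ => by rw [mul_pow, pow_two, hii]
    rw [e1, e2, e3] at hcs
    have : n * (n * A ^ 2) ≤ n * ∑ x, ind E x * o x ^ 2 := by nlinarith [hcs]
    exact le_of_mul_le_mul_left this hn0
  have hTsum : ∑ z, (1 - ind E z) * T z ^ 2 ≤ n * (M - A) := by
    have hle : ∑ z, (1 - ind E z) * T z ^ 2 ≤ ∑ z, (1 - ind E z) * T z := by
      refine Finset.sum_le_sum fun z _ => ?_
      by_cases hz : z ∈ E
      · have : ind E z = 1 := by unfold ind; simp [hz]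
        rw [this]; simp
      · have : ind E z = 0 := by unfold ind; simp [hz]
        rw [this]
        have h3 := hT1 z hz
        have h4 := hT0 z
        nlinarith
    refine hle.trans (le_of_eq ?_)
    have : ∀ z, (1 - ind E z) * T z = ∑ w ∈ S, ν w * ((1 - ind E z) * ind E (z - w)) := by
      intro x
      simp only [T, Finset.mul_sum]
      exact Finset.sum_congr rfl fun w _ => by ring
    simp only [this]
    rw [Finset.sum_comm]
    have h5 : ∀ w, ∑ z, (1 - ind E z) * ind E (z - w) = n - rr E w := by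
      intro w
      have : ∑ z, (1 - ind E z) * ind E (z - w) = ∑ x, (1 - ind E (x + w)) * ind E x := by
        rw [← Equiv.sum_comp (Equiv.addRight w)]
        simp
      rw [this, rr_eq, hn, card_eq, ← Finset.sum_sub_distrib]
      exact Finset.sum_congr rfl fun x _ => by ring
    have h6 : ∀ w, ∑ z, ν w * ((1 - ind E z) * ind E (z - w)) = ν w * (n - rr E w) := by
      intro w; rw [← Finset.mul_sum, h5]
    simp only [h6]
    rw [hMdef, hAdef, ← Finset.sum_sub_distrib, Finset.mul_sum]
    refine Finset.sum_congr rfl fun w _ => ?_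
    field_simp
  have hquad : ∑ x, ind E x * o x ^ 2 - ∑ z, (1 - ind E z) * T z ^ 2
      ≤ ∑ w ∈ S, ∑ u ∈ S, ν w * (ν u * (rr (shr E w) u : ℝ)) := by
    have q1 : ∑ x, ind E x * o x ^ 2
        = ∑ w ∈ S, ∑ u ∈ S, ν w * (ν u * ∑ x, ind E x * ind E (x + w) * ind E (x + u)) := by
      have : ∀ x, ind E x * o x ^ 2
          = ∑ w ∈ S, ∑ u ∈ S, ν w * (ν u * (ind E x * ind E (x + w) * ind E (x + u))) := by
        intro x
        simp only [o]
        rw [pow_two, Finset.sum_mul_sum, Finset.mul_sum]
        refine Finset.sum_congr rfl fun w _ => ?_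
        rw [Finset.mul_sum]
        exact Finset.sum_congr rfl fun u _ => by ring
      simp only [this]
      rw [Finset.sum_comm]
      refine Finset.sum_congr rfl fun w _ => ?_
      rw [Finset.sum_comm]
      refine Finset.sum_congr rfl fun u _ => ?_
      rw [← Finset.mul_sum, ← Finset.mul_sum]
    have q2 : ∑ z, (1 - ind E z) * T z ^ 2
        = ∑ w ∈ S, ∑ u ∈ S, ν w * (ν u *
            ∑ x, (1 - ind E (x + u + w)) * ind E (x + w) * ind E (x + u)) := by
      have : ∀ z, (1 - ind E z) * T z ^ 2
          = ∑ w ∈ S, ∑ u ∈ S, ν w * (ν u * ((1 - ind E z) * ind E (z - u) * ind E (z - w))) := by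
        intro z
        simp only [T]
        rw [pow_two, Finset.sum_mul_sum, Finset.mul_sum]
        refine Finset.sum_congr rfl fun w _ => ?_
        rw [Finset.mul_sum]
        exact Finset.sum_congr rfl fun u _ => by ring
      simp only [this]
      rw [Finset.sum_comm]
      refine Finset.sum_congr rfl fun w _ => ?_
      rw [Finset.sum_comm]
      refine Finset.sum_congr rfl fun u _ => ?_
      rw [← Finset.mul_sum, ← Finset.mul_sum]
      congr 2
      rw [← Equiv.sum_comp (Equiv.addRight (u + w))]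
      refine Finset.sum_congr rfl fun x _ => ?_
      have e1 : (Equiv.addRight (u + w)) x = x + u + w := by simp [add_assoc]
      rw [e1]
      have e2 : x + u + w - u = x + w := by abel
      have e3 : x + u + w - w = x + u := by abel
      rw [e2, e3]
    rw [q1, q2, ← Finset.sum_sub_distrib]
    refine Finset.sum_le_sum fun w _ => ?_
    rw [← Finset.sum_sub_distrib]
    refine Finset.sum_le_sum fun u _ => ?_
    rw [← mul_sub, ← mul_sub]
    refine mul_le_mul_of_nonneg_left (mul_le_mul_of_nonneg_left ?_ (hν u)) (hν w)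
    rw [rr_eq, ← Finset.sum_sub_distrib]
    refine Finset.sum_le_sum fun x _ => ?_
    rw [ind_shr, ind_shr]
    have i0 := ind_nonneg E x
    have i1 := ind_le_one E x
    have j0 := ind_nonneg E (x + w)
    have k0 := ind_nonneg E (x + u)
    have l1 := ind_le_one E (x + u + w)
    have hjk : 0 ≤ ind E (x + w) * ind E (x + u) * (1 - ind E (x + u + w)) :=
      mul_nonneg (mul_nonneg j0 k0) (by linarith)
    nlinarith [mul_nonneg hjk (by linarith : (0:ℝ) ≤ 1 - ind E x)]
  have hstep : A ^ 2 - (M - A) ≤ ∑ w ∈ S, ν w * ((rr E w : ℝ) / n) * a w := by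
    have e1 : ∑ w ∈ S, ∑ u ∈ S, ν w * (ν u * (rr (shr E w) u : ℝ))
        = n * ∑ w ∈ S, ν w * ((rr E w : ℝ) / n) * a w := by
      rw [Finset.mul_sum]
      refine Finset.sum_congr rfl fun w hwS => ?_
      have hc : ((shr E w).card : ℝ) = rr E w := by rw [card_shr]
      have hpos : 0 < (rr E w : ℝ) := hpos' w hwS
      simp only [a]
      rw [hc, Finset.mul_sum, Finset.mul_sum]
      refine Finset.sum_congr rfl fun u _ => ?_
      field_simp
    rw [e1] at hquad
    have : n * (A ^ 2 - (M - A)) ≤ n * ∑ w ∈ S, ν w * ((rr E w : ℝ) / n) * a w := by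
      nlinarith [hquad, hCS, hTsum]
    exact le_of_mul_le_mul_left this hn0
  exact hstep

theorem rr_full {E : Finset G} {w : G} (h : rr E w = E.card) : shr E w = E := by
  refine Finset.eq_of_subset_of_card_le (shr_subset E w) ?_
  rw [card_shr, h]

/-- The group of periods. -/
def perG (E : Finset G) : AddSubgroup G where
  carrier := {w | ∀ x, x ∈ E ↔ x + w ∈ E}
  zero_mem' := by intro x; rw [add_zero]
  add_mem' := by
    intro a b ha hb x
    rw [ha x, hb (x + a), add_assoc]
  neg_mem' := by
    intro a ha x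
    have h := ha (x + -a)
    rw [neg_add_cancel_right] at h
    exact h.symm

theorem mem_perG {E : Finset G} {w : G} (h : shr E w = E) : w ∈ perG E := by
  classical
  have h1 : ∀ x ∈ E, x + w ∈ E := by
    intro x hx
    rw [← h] at hx
    unfold shr at hx
    exact (Finset.mem_filter.1 hx).2
  have h2 : E.image (fun x => x + w) = E := by
    refine Finset.eq_of_subset_of_card_le ?_ ?_
    · intro y hy
      obtain ⟨x, hx, rfl⟩ := Finset.mem_image.1 hy
      exact h1 x hx
    · rw [Finset.card_image_of_injective _ (add_left_injective w)]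
  intro x
  refine ⟨h1 x, fun hx => ?_⟩
  rw [← h2] at hx
  obtain ⟨y, hy, hyx⟩ := Finset.mem_image.1 hx
  rwa [add_left_injective w hyx] at hy

/-- A small computation. -/
theorem le_of_sq {a B y : ℝ} (hB : 0 < B) (hy : 0 ≤ y) (h : a ^ 2 ≤ B ^ 2 - y) :
    a ≤ B - y / (2 * B) := by
  have h1 : y ≤ B ^ 2 := by nlinarith [sq_nonneg a]
  have h2 : y / (2 * B) ≤ B / 2 := by
    rw [div_le_iff₀ (by positivity)]
    nlinarith
  have h3 : 0 ≤ B - y / (2 * B) := by linarith
  apply le_of_sq_le_sq' h3
  have h4 : (B - y / (2 * B)) ^ 2 = B ^ 2 - y + (y / (2 * B)) ^ 2 := by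
    field_simp
    ring
  rw [h4]
  have := sq_nonneg (y / (2 * B))
  linarith
where
  le_of_sq_le_sq' {a b : ℝ} (hb : 0 ≤ b) (h : a ^ 2 ≤ b ^ 2) : a ≤ b := by
    nlinarith [abs_le_of_sq_le_sq h hb, le_abs_self a]

end

open Classical in
/-- The normalized statement. -/
theorem norm1 (G : Type) [AddCommGroup G] [Fintype G] (ν : G → ℝ) (hν : ∀ w, 0 ≤ ν w) (a : ℝ) :
    ∀ N : ℕ, ∀ E : Finset G, E.card = N → E.Nonempty →
      (∀ z, z ∉ E → (∑ w : G, ν w * ind E (z - w)) ≤ 1) →
      ∀ S : Finset G, (∀ (Λ : AddSubgroup G) (x : G), (∀ h ∈ Λ, x + h ∈ E) →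
        (∑ w ∈ S, if w ∈ Λ then ν w else 0) ≤ a) →
      (∑ w ∈ S, ν w * ((rr E w : ℝ) / E.card)) ^ 2
        ≤ (∑ w ∈ S, ν w) * (a + 4 * (1 + Real.log E.card)) := by
  intro N
  induction N using Nat.strong_induction_on with
  | _ N ih =>
  intro E hN hE hz S hΛ
  set A : Finset G → ℝ := fun S => ∑ w ∈ S, ν w * ((rr E w : ℝ) / E.card) with hA
  set M : Finset G → ℝ := fun S => ∑ w ∈ S, ν w with hM
  have hn0 : (0:ℝ) < E.card := by exact_mod_cast hE.card_pos
  have hlog0 : 0 ≤ Real.log E.card := Real.log_nonneg (by exact_mod_cast hE.card_pos)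
  have ha0 : 0 ≤ a := by
    obtain ⟨x, hx⟩ := hE
    refine le_trans ?_ (hΛ ⊥ x ?_)
    · refine Finset.sum_nonneg fun w _ => ?_
      split_ifs
      · exact hν w
      · exact le_refl _
    · intro h hh
      rw [AddSubgroup.mem_bot] at hh
      rw [hh, add_zero]
      exact hx
  set K : ℝ := a + 4 * (1 + Real.log E.card) with hK
  have hK0 : 0 < K := by rw [hK]; positivity
  let S1 := S.filter (fun w => 0 < ν w)
  obtain ⟨S0, hS0, hmax⟩ := Finset.exists_max_image S1.powerset (fun S => A S ^ 2 / M S)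
    ⟨∅, by simp⟩
  have hS0S : S0 ⊆ S := (Finset.mem_powerset.1 hS0).trans (Finset.filter_subset _ _)
  have hS0U : ∀ w ∈ S0, 0 < ν w := fun w hw =>
    (Finset.mem_filter.1 ((Finset.mem_powerset.1 hS0) hw)).2
  have hA0 : ∀ S, 0 ≤ A S := fun S => Finset.sum_nonneg fun w _ =>
    mul_nonneg (hν w) (by positivity)
  have hM0 : ∀ S, 0 ≤ M S := fun S => Finset.sum_nonneg fun w _ => hν w
  have hAM : ∀ S, A S ≤ M S := fun S => Finset.sum_le_sum fun w _ => by
    calc ν w * ((rr E w : ℝ) / E.card) ≤ ν w * 1 :=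
          mul_le_mul_of_nonneg_left ((div_le_one hn0).2 (rr_le E w)) (hν w)
      _ = ν w := mul_one _
  have key : A S0 ^ 2 ≤ M S0 * K := by
    rcases (hA0 S0).eq_or_lt with hz0 | hpos
    · rw [← hz0]
      have := mul_nonneg (hM0 S0) hK0.le
      simpa using this
    have hMpos : 0 < M S0 := lt_of_lt_of_le hpos (hAM S0)
    have h1 : ∀ w ∈ S0, A S0 ≤ 2 * M S0 * ((rr E w : ℝ) / E.card) := by
      intro w hw
      set s : ℝ := (rr E w : ℝ) / E.card with hs
      have hs0 : 0 ≤ s := by rw [hs]; positivity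
      have eA : A (S0.erase w) = A S0 - ν w * s := by
        have := Finset.add_sum_erase S0 (fun w => ν w * ((rr E w : ℝ) / E.card)) hw
        simp only [hA]
        linarith
      have eM : M (S0.erase w) = M S0 - ν w := by
        have := Finset.add_sum_erase S0 (fun w => ν w) hw
        simp only [hM]
        linarith
      have hm := hmax (S0.erase w) (Finset.mem_powerset.2
        ((Finset.erase_subset _ _).trans (Finset.mem_powerset.1 hS0)))
      have hineq : A (S0.erase w) ^ 2 * M S0 ≤ A S0 ^ 2 * M (S0.erase w) := by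
        rcases (hM0 (S0.erase w)).eq_or_lt with hz1 | hp1
        · have : A (S0.erase w) = 0 :=
            le_antisymm (by rw [hz1]; exact hAM _) (hA0 _)
          rw [this, ← hz1]; simp
        · rw [div_le_div_iff₀ hp1 hMpos] at hm
          exact hm
      rw [eA, eM] at hineq
      have hνw := hS0U w hw
      have h3 : ν w * (A S0 ^ 2) ≤ ν w * (2 * A S0 * s * M S0) := by
        have : 0 ≤ (ν w) ^ 2 * s ^ 2 * M S0 := by positivity
        nlinarith [hineq]
      have h4 := le_of_mul_le_mul_left h3 hνw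
      have h5 : A S0 * A S0 ≤ A S0 * (2 * M S0 * s) := by nlinarith [h4]
      exact le_of_mul_le_mul_left h5 hpos
    have hrpos : ∀ w ∈ S0, 0 < (rr E w : ℝ) := by
      intro w hw
      by_contra hneg
      have h0' : (rr E w : ℝ) = 0 := le_antisymm (not_lt.1 hneg) (by positivity)
      have := h1 w hw
      rw [h0'] at this
      simp at this
      linarith
    have hst := hstep ν hν E hE hz S0 hrpos
    change A S0 ^ 2 - (M S0 - A S0) ≤ _ at hst
    set B : ℝ := Real.sqrt (M S0 * K) with hB
    have hB0 : 0 < B := Real.sqrt_pos.2 (mul_pos hMpos hK0)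
    have hBsq : B ^ 2 = M S0 * K := Real.sq_sqrt (mul_pos hMpos hK0).le
    set m0 : ℝ := ∑ w ∈ S0, if rr E w = E.card then ν w else 0 with hm0
    have hm0a : m0 ≤ a := by
      obtain ⟨x, hx⟩ := hE
      refine le_trans ?_ (hΛ (perG E) x fun h hh => ((hh x).1 hx))
      calc m0 ≤ ∑ w ∈ S0, if w ∈ perG E then ν w else 0 := by
            refine Finset.sum_le_sum fun w _ => ?_
            by_cases h : rr E w = E.card
            · rw [if_pos h, if_pos (mem_perG (rr_full h))]
            · rw [if_neg h]
              split_ifs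
              · exact hν w
              · exact le_refl _
        _ ≤ ∑ w ∈ S, if w ∈ perG E then ν w else 0 := by
            refine Finset.sum_le_sum_of_subset_of_nonneg hS0S fun w _ _ => ?_
            split_ifs
            · exact hν w
            · exact le_refl _
    have hm00 : 0 ≤ m0 := Finset.sum_nonneg fun w _ => by
      split_ifs
      · exact hν w
      · exact le_refl _
    have hm0M : m0 ≤ M S0 := Finset.sum_le_sum fun w _ => by
      split_ifs
      · exact le_refl _
      · exact hν w
    have hm0B : m0 ≤ B := by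
      apply Real.le_sqrt_of_sq_le
      have h1' : a ≤ K := by rw [hK]; linarith
      calc m0 ^ 2 = m0 * m0 := pow_two _
        _ ≤ M S0 * K := mul_le_mul hm0M (hm0a.trans h1') hm00 (hM0 _)
    -- the estimate of the single terms
    have hterm : ∀ w ∈ S0, ν w * ((rr E w : ℝ) / E.card) *
        (∑ u ∈ S0, ν u * ((rr (shr E w) u : ℝ) / (shr E w).card)) ≤
        ν w * ((rr E w : ℝ) / E.card) * B -
          (2 * M S0 / B) * (ν w * ((rr E w : ℝ) / E.card) * (1 - (rr E w : ℝ) / E.card)) +
          (if rr E w = E.card then ν w else 0) * (A S0 - B) := by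
      intro w hw
      by_cases h : rr E w = E.card
      · rw [rr_full h, if_pos h]
        have h2 : (rr E w : ℝ) / E.card = 1 := by rw [h]; exact div_self hn0.ne'
        rw [h2]
        change ν w * 1 * A S0 ≤ _
        have : ν w * 1 * A S0 = ν w * 1 * B - (2 * M S0 / B) * (ν w * 1 * (1 - 1)) +
            ν w * (A S0 - B) := by ring
        rw [this]
      · rw [if_neg h, zero_mul, add_zero]
        have hs := hrpos w hw
        set s : ℝ := (rr E w : ℝ) / E.card with hsdef
        have hs0 : 0 < s := div_pos hs hn0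
        have hs1 : s ≤ 1 := (div_le_one hn0).2 (rr_le E w)
        have hlt : (shr E w).card < E.card := by
          rw [card_shr]
          refine lt_of_le_of_ne ?_ h
          exact_mod_cast rr_le E w
        have hne : (shr E w).Nonempty := by
          rw [← Finset.card_pos, card_shr]
          exact_mod_cast hs
        have hIH := ih (shr E w).card (by rw [← hN]; exact hlt) (shr E w) rfl hne (by
          intro z hzE
          by_cases hzE' : z ∈ E
          · have hzw : z + w ∉ E := fun h => hzE (Finset.mem_filter.2 ⟨hzE', h⟩)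
            refine le_trans (Finset.sum_le_sum fun u _ => ?_) (hz (z + w) hzw)
            refine mul_le_mul_of_nonneg_left ?_ (hν u)
            rw [ind_shr]
            have e : z - u + w = z + w - u := by abel
            rw [e]
            calc ind E (z - u) * ind E (z + w - u) ≤ 1 * ind E (z + w - u) :=
                  mul_le_mul_of_nonneg_right (ind_le_one _ _) (ind_nonneg _ _)
              _ = _ := one_mul _
          · refine le_trans (Finset.sum_le_sum fun u _ => ?_) (hz z hzE')
            refine mul_le_mul_of_nonneg_left ?_ (hν u)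
            rw [ind_shr]
            calc ind E (z - u) * ind E (z - u + w) ≤ ind E (z - u) * 1 :=
                  mul_le_mul_of_nonneg_left (ind_le_one _ _) (ind_nonneg _ _)
              _ = _ := mul_one _) S0 (by
          intro Λ x hx
          refine le_trans ?_ (hΛ Λ x fun h' hh' => shr_subset E w (hx h' hh'))
          refine Finset.sum_le_sum_of_subset_of_nonneg hS0S fun u _ _ => ?_
          split_ifs
          · exact hν u
          · exact le_refl _)
        have hc : ((shr E w).card : ℝ) = rr E w := by rw [card_shr]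
        have hlogs : Real.log (rr E w : ℝ) - Real.log E.card ≤ s - 1 := by
          rw [← Real.log_div hs.ne' hn0.ne']
          exact Real.log_le_sub_one_of_pos hs0
        have h5 : (∑ u ∈ S0, ν u * ((rr (shr E w) u : ℝ) / (shr E w).card)) ^ 2 ≤
            B ^ 2 - 4 * M S0 * (1 - s) := by
          refine hIH.trans ?_
          rw [hc, hBsq, hK]
          change M S0 * _ ≤ _
          nlinarith [mul_le_mul_of_nonneg_left hlogs hMpos.le]
        have h6 := le_of_sq hB0 (by nlinarith : 0 ≤ 4 * M S0 * (1 - s)) h5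
        have h7 : B - 4 * M S0 * (1 - s) / (2 * B) = B - (2 * M S0 / B) * (1 - s) := by
          field_simp
          ring
        rw [h7] at h6
        calc ν w * s * (∑ u ∈ S0, ν u * ((rr (shr E w) u : ℝ) / (shr E w).card))
            ≤ ν w * s * (B - (2 * M S0 / B) * (1 - s)) :=
              mul_le_mul_of_nonneg_left h6 (mul_nonneg (hν w) hs0.le)
          _ = ν w * s * B - (2 * M S0 / B) * (ν w * s * (1 - s)) := by ring
    have hsum := hst.trans (Finset.sum_le_sum hterm)
    rw [Finset.sum_add_distrib, Finset.sum_sub_distrib, ← Finset.sum_mul, ← Finset.mul_sum,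
      ← Finset.sum_mul] at hsum
    change A S0 ^ 2 - (M S0 - A S0) ≤ A S0 * B - (2 * M S0 / B) * _ + m0 * (A S0 - B) at hsum
    have hlast : (M S0 - A S0) * (A S0 / (2 * M S0)) ≤
        ∑ w ∈ S0, ν w * ((rr E w : ℝ) / E.card) * (1 - (rr E w : ℝ) / E.card) := by
      have : M S0 - A S0 = ∑ w ∈ S0, ν w * (1 - (rr E w : ℝ) / E.card) := by
        simp only [hM, hA]
        rw [← Finset.sum_sub_distrib]
        exact Finset.sum_congr rfl fun w _ => by ring
      rw [this, Finset.sum_mul]
      refine Finset.sum_le_sum fun w hwS => ?_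
      have hs1 : (rr E w : ℝ) / E.card ≤ 1 := (div_le_one hn0).2 (rr_le E w)
      have h2 : A S0 / (2 * M S0) ≤ (rr E w : ℝ) / E.card := by
        rw [div_le_iff₀ (by positivity)]
        have := h1 w hwS
        linarith
      calc ν w * (1 - (rr E w : ℝ) / E.card) * (A S0 / (2 * M S0))
          ≤ ν w * (1 - (rr E w : ℝ) / E.card) * ((rr E w : ℝ) / E.card) :=
            mul_le_mul_of_nonneg_left h2 (mul_nonneg (hν w) (by linarith))
        _ = _ := by ring
    have hc1 : (A S0 / B) * (M S0 - A S0) ≤ (2 * M S0 / B) *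
        ∑ w ∈ S0, ν w * ((rr E w : ℝ) / E.card) * (1 - (rr E w : ℝ) / E.card) := by
      have h3 := mul_le_mul_of_nonneg_left hlast (by positivity : 0 ≤ 2 * M S0 / B)
      refine le_trans (le_of_eq ?_) h3
      field_simp
    have hAB : A S0 ≤ B := by
      by_contra hcon
      push Not at hcon
      have h3 : (A S0 - B) * (A S0 - m0) ≤ (M S0 - A S0) * (1 - A S0 / B) := by
        nlinarith [hsum, hc1]
      have h4 : 0 < (A S0 - B) * (A S0 - m0) := mul_pos (by linarith) (by linarith)
      have h5 : 1 ≤ A S0 / B := (one_le_div hB0).2 hcon.le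
      have h6 : (M S0 - A S0) * (1 - A S0 / B) ≤ 0 :=
        mul_nonpos_of_nonneg_of_nonpos (by linarith [hAM S0]) (by linarith)
      linarith
    rw [← hBsq]
    exact pow_le_pow_left₀ (hA0 _) hAB 2
  have eA : A S = A S1 := by
    simp only [hA, S1]
    rw [Finset.sum_filter]
    refine Finset.sum_congr rfl fun w _ => ?_
    split_ifs with h
    · rfl
    · have : ν w = 0 := le_antisymm (not_lt.1 h) (hν w)
      rw [this, zero_mul]
  have eM : M S = M S1 := by
    simp only [hM, S1]
    rw [Finset.sum_filter]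
    refine Finset.sum_congr rfl fun w _ => ?_
    split_ifs with h
    · rfl
    · exact le_antisymm (not_lt.1 h) (hν w)
  change A S ^ 2 ≤ M S * K
  rw [eA, eM]
  have hm := hmax S1 (Finset.mem_powerset.2 (Finset.Subset.refl _))
  rcases (hM0 S1).eq_or_lt with hz1 | hp1
  · have : A S1 = 0 := le_antisymm (by rw [hz1]; exact hAM _) (hA0 _)
    rw [this, ← hz1]; simp
  · have hJ : A S0 ^ 2 / M S0 ≤ K := by
      rcases (hM0 S0).eq_or_lt with hz0 | hp0
      · rw [← hz0, div_zero]; exact hK0.le
      · rw [div_le_iff₀ hp0]; linarith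
    have h6 := hm.trans hJ
    rw [div_le_iff₀ hp1] at h6
    linarith

open Classical in
theorem goalLA : G_LA := by
  intro G _ _ μ ρ a S E hμ hρ hE hT hΛ
  have hρ' : (0 : ℝ) ≤ 1 / ρ := by positivity
  have h := norm1 G (fun w => μ w / ρ) (fun w => div_nonneg (hμ w) hρ.le) (a / ρ) E.card E rfl hE
    (by
      intro z hz
      have h1 := hT z hz
      have h2 : (∑ w : G, μ w / ρ * ind E (z - w)) = TT μ E z / ρ := by
        unfold TT
        rw [Finset.sum_div]
        refine Finset.sum_congr rfl fun w _ => ?_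
        unfold ind
        split_ifs
        · rw [mul_one]
        · rw [mul_zero, zero_div]
      rw [h2, div_le_one hρ]
      exact h1) S (by
      intro Λ x hx
      have h1 := hΛ Λ x hx
      have h2 : (∑ w ∈ S, if w ∈ Λ then μ w / ρ else 0) = (∑ w ∈ S, if w ∈ Λ then μ w else 0) / ρ := by
        rw [Finset.sum_div]
        refine Finset.sum_congr rfl fun w _ => ?_
        split_ifs
        · rfl
        · rw [zero_div]
      rw [h2]
      exact div_le_div_of_nonneg_right h1 hρ.le)
  have e1 : ∑ w ∈ S, μ w / ρ * ((rr E w : ℝ) / E.card) =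
      (∑ w ∈ S, μ w * ((rr E w : ℝ) / E.card)) / ρ := by
    rw [Finset.sum_div]
    exact Finset.sum_congr rfl fun w _ => by ring
  have e2 : ∑ w ∈ S, μ w / ρ = (∑ w ∈ S, μ w) / ρ := by rw [Finset.sum_div]
  rw [e1, e2] at h
  have h3 := mul_le_mul_of_nonneg_right h (by positivity : (0 : ℝ) ≤ ρ ^ 2)
  have e3 : ((∑ w ∈ S, μ w * ((rr E w : ℝ) / E.card)) / ρ) ^ 2 * ρ ^ 2 =
      (∑ w ∈ S, μ w * ((rr E w : ℝ) / E.card)) ^ 2 := by
    field_simp
  have e4 : (∑ w ∈ S, μ w) / ρ * (a / ρ + 4 * (1 + Real.log E.card)) * ρ ^ 2 =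
      (∑ w ∈ S, μ w) * (a + 4 * ρ * (1 + Real.log E.card)) := by
    field_simp
  rw [e3, e4] at h3
  exact h3

end Pool.Agent.Helper15.MCE
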